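import Pool.Agent.H72.PRK.S2
import Pool.Agent.H33.HYP.TWS

/-!
# PRK, row SGK: the Selmer group of the twist in terms of the classes for `f`
-/

set_option autoImplicit false

namespace Pool.PRK

open Polynomial Matrix Pool.HYP Pool.TOW Pool.AVS Pool.T1 IsDedekindDomain

namespace H15

open Pool.HYP.H33

section Iso

variable {K : Type} [Field K]

theorem span_scale (G G' : K[X]) (δ : K) (hδ : δ ≠ 0) (hG : G' = G.scaleRoots δ) :
    Ideal.span {G} = (Ideal.span {G'}).map (scE δ hδ : K[X] ≃+* K[X]) := by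
  rw [Ideal.map_span, Set.image_singleton]
  have h2 : (scE δ hδ : K[X] ≃+* K[X]) G' = C (δ ^ G.natDegree) * G := by
    rw [hG]
    exact comp_scale G δ
  rw [h2, Ideal.span_singleton_mul_left_unit]
  exact isUnit_C.2 (isUnit_iff_ne_zero.2 (pow_ne_zero _ hδ))

/-- The algebra of the twist. -/
noncomputable def phi (G G' : K[X]) (δ : K) (hδ : δ ≠ 0) (hG : G' = G.scaleRoots δ) :
    AdjoinRoot G' ≃ₐ[K] AdjoinRoot G :=
  Ideal.quotientEquivAlg (Ideal.span {G'}) (Ideal.span {G}) (scE δ hδ) (span_scale G G' δ hδ hG)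

theorem phi_mk (G G' : K[X]) (δ : K) (hδ : δ ≠ 0) (hG : G' = G.scaleRoots δ) (p : K[X]) :
    phi G G' δ hδ hG (AdjoinRoot.mk G' p) = AdjoinRoot.mk G (p.comp (C δ * X)) := rfl

/-- The classes modulo squares. -/
noncomputable def eqv (G G' : K[X]) (δ : K) (hδ : δ ≠ 0) (hG : G' = G.scaleRoots δ) :
    ((AdjoinRoot G)ˣ ⧸ SqG G) ≃* ((AdjoinRoot G')ˣ ⧸ SqG G') :=
  QuotientGroup.congr (SqG G) (SqG G')
    (Units.mapEquiv (phi G G' δ hδ hG).symm.toMulEquiv) (by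
      ext x
      constructor
      · rintro ⟨_, ⟨t, rfl⟩, rfl⟩
        exact ⟨Units.mapEquiv (phi G G' δ hδ hG).symm.toMulEquiv t, by
          simp only [powMonoidHom_apply]
          exact (map_pow _ t 2).symm⟩
      · rintro ⟨t, rfl⟩
        refine ⟨(Units.mapEquiv (phi G G' δ hδ hG).toMulEquiv t) ^ 2,
          ⟨Units.mapEquiv (phi G G' δ hδ hG).toMulEquiv t, rfl⟩, ?_⟩
        refine Units.ext ?_
        show (phi G G' δ hδ hG).symm ((phi G G' δ hδ hG (t : AdjoinRoot G')) ^ 2) =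
          (t : AdjoinRoot G') ^ 2
        rw [map_pow, AlgEquiv.symm_apply_apply])

theorem eqv_mk (G G' : K[X]) (δ : K) (hδ : δ ≠ 0) (hG : G' = G.scaleRoots δ)
    (u : (AdjoinRoot G)ˣ) :
    eqv G G' δ hδ hG (QuotientGroup.mk u) =
      QuotientGroup.mk (Units.mapEquiv (phi G G' δ hδ hG).symm.toMulEquiv u) := rfl

/-- Composition and extension of the field. -/
theorem cmp_map {L : Type} [Field L] (ι : K →+* L) (δ : K) (q : K[X]) :
    (q.map ι).comp (C (ι δ) * X) = (q.comp (C δ * X)).map ι := by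
  rw [map_comp, Polynomial.map_mul, map_C, map_X]

/-- Local classes of divisors of the twist. -/
theorem loc_iff {L : Type} [Field L] (ι : K →+* L) (G G' : K[X]) (δ : K) (hδ : δ ≠ 0)
    (hG : G' = G.scaleRoots δ) (hGm : G.Monic) (p : K[X]) :
    LocSol (G'.map ι) (p.map ι) ↔
      ∃ u w s : L[X], u.Monic ∧ IsCoprime u (G'.map ι) ∧ u ∣ w ^ 2 - G'.map ι ∧
        G.map ι ∣ Pool.HYP.kap (u.comp (C (ι δ) * X)) - (p.comp (C δ * X)).map ι * s ^ 2 := by
  have hιδ : ι δ ≠ 0 := (map_ne_zero ι).2 hδ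
  have hGs : G'.map ι = (G.map ι).scaleRoots (ι δ) := by
    rw [hG]
    refine map_scaleRoots G δ ι ?_
    rw [hGm.leadingCoeff, map_one]
    exact one_ne_zero
  have hdeg : ∀ u : L[X], (u.comp (C (ι δ) * X)).natDegree = u.natDegree := by
    intro u
    rw [natDegree_comp, natDegree_C_mul_X _ hιδ, mul_one]
  have key : ∀ u s : L[X], (G'.map ι ∣ (-1) ^ u.natDegree * u - p.map ι * s ^ 2 ↔
      G.map ι ∣ Pool.HYP.kap (u.comp (C (ι δ) * X)) -
        (p.comp (C δ * X)).map ι * (s.comp (C (ι δ) * X)) ^ 2) := by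
    intro u s
    rw [hGs, ← dvd_scale _ _ _ hιδ]
    unfold Pool.HYP.kap
    rw [hdeg, sub_comp, mul_comp, mul_comp, pow_comp, pow_comp, neg_comp, one_comp, cmp_map]
  constructor
  · rintro ⟨u, w, s, a1, a2, a3, a4⟩
    exact ⟨u, w, s.comp (C (ι δ) * X), a1, a2, a3, (key u s).1 a4⟩
  · rintro ⟨u, w, s, a1, a2, a3, a4⟩
    obtain ⟨s', rfl⟩ := (scE (ι δ) hιδ).surjective s
    exact ⟨u, w, s', a1, a2, a3, (key u s').2 a4⟩

/-- Local classes modulo squares. -/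
theorem loc_sq {L : Type} [Field L] (ι : K →+* L) (G' p p' t : K[X])
    (h : G' ∣ p' - p * t ^ 2) (hl : LocSol (G'.map ι) (p'.map ι)) :
    LocSol (G'.map ι) (p.map ι) := by
  obtain ⟨u, w, s, a1, a2, a3, a4⟩ := hl
  refine ⟨u, w, t.map ι * s, a1, a2, a3, ?_⟩
  have h1 : G'.map ι ∣ p'.map ι - p.map ι * t.map ι ^ 2 := by
    have h2 := Polynomial.map_dvd ι h
    rwa [Polynomial.map_sub, Polynomial.map_mul, Polynomial.map_pow] at h2
  obtain ⟨r, hr⟩ := a4
  obtain ⟨r', hr'⟩ := h1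
  exact ⟨r + r' * s ^ 2, by linear_combination hr + s ^ 2 * hr'⟩

end Iso

end H15

open H15 Pool.HYP.H33 in
/-- **SGK.** -/
theorem sgk : SGKStmt := by
  intro R _ _ K _ _ _ f d hf hd
  obtain ⟨δ, hδ⟩ : ∃ δ : K, δ = algebraMap R K d := ⟨_, rfl⟩
  have hδ0 : δ ≠ 0 := by
    rw [hδ]
    exact (map_ne_zero_iff _ (IsFractionRing.injective R K)).2 hd
  have hfK : fk K (f.scaleRoots d) = (fk K f).scaleRoots δ := by
    rw [hδ]
    refine map_scaleRoots f d _ ?_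
    rw [hf.leadingCoeff, map_one]
    exact one_ne_zero
  have hGm : (fk K f).Monic := hf.map _
  refine ⟨(eqv (fk K f) (fk K (f.scaleRoots d)) δ hδ0 hfK).toEquiv, ?_⟩
  intro u α hu
  obtain ⟨p, hpα⟩ := (scE δ hδ0).surjective α
  rw [scE_apply] at hpα
  obtain ⟨U, hU⟩ : ∃ U : (AdjoinRoot (fk K (f.scaleRoots d)))ˣ,
    U = Units.mapEquiv (phi (fk K f) (fk K (f.scaleRoots d)) δ hδ0 hfK).symm.toMulEquiv u :=
    ⟨_, rfl⟩
  have hUv : (U : AdjoinRoot (fk K (f.scaleRoots d))) =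
      (phi (fk K f) (fk K (f.scaleRoots d)) δ hδ0 hfK).symm (u : AdjoinRoot (fk K f)) := by
    rw [hU]
    rfl
  have hmk : AdjoinRoot.mk (fk K (f.scaleRoots d)) p =
      (U : AdjoinRoot (fk K (f.scaleRoots d))) := by
    rw [hUv, AlgEquiv.eq_symm_apply, phi_mk, hpα, hu]
  have hee : (eqv (fk K f) (fk K (f.scaleRoots d)) δ hδ0 hfK).toEquiv (QuotientGroup.mk u) =
      (QuotientGroup.mk U : (AdjoinRoot (fk K (f.scaleRoots d)))ˣ ⧸
        SqG (fk K (f.scaleRoots d))) := by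
    rw [hU]
    exact eqv_mk _ _ _ _ _ u
  rw [hee]
  have hNiff : NSq (fk K f) α ↔ NSq (fk K (f.scaleRoots d)) p := by
    unfold NSq
    rw [← hpα, norm_scale _ _ _ hδ0, ← hfK]
  have hLiff : ∀ (L : Type) [Field L] (ι : K →+* L),
      LSDK ι d f α ↔ LocSol ((fk K (f.scaleRoots d)).map ι) (p.map ι) := by
    intro L _ ι
    rw [loc_iff ι (fk K f) (fk K (f.scaleRoots d)) δ hδ0 hfK hGm p, hpα, hδ]
    rfl
  constructor
  · rintro ⟨u', p', h1, h2, h3, h4⟩
    rw [QuotientGroup.eq] at h1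
    obtain ⟨t, ht⟩ := h1
    -- `u'⁻¹ U = t²`
    have ht' : (U : AdjoinRoot (fk K (f.scaleRoots d))) =
        (u' : AdjoinRoot (fk K (f.scaleRoots d))) * (t : AdjoinRoot (fk K (f.scaleRoots d))) ^ 2 := by
      have h5 : U = u' * t ^ 2 := by
        have h6 : t ^ 2 = u'⁻¹ * U := ht
        rw [h6, mul_inv_cancel_left]
      rw [h5]
      push_cast
      rfl
    have hti : (u' : AdjoinRoot (fk K (f.scaleRoots d))) =
        (U : AdjoinRoot (fk K (f.scaleRoots d))) *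
          ((t⁻¹ : (AdjoinRoot (fk K (f.scaleRoots d)))ˣ) :
            AdjoinRoot (fk K (f.scaleRoots d))) ^ 2 := by
      rw [ht', mul_assoc, ← mul_pow, Units.mul_inv, one_pow, mul_one]
    obtain ⟨q, hq⟩ := AdjoinRoot.mk_surjective
      ((t⁻¹ : (AdjoinRoot (fk K (f.scaleRoots d)))ˣ) : AdjoinRoot (fk K (f.scaleRoots d)))
    have hdv : fk K (f.scaleRoots d) ∣ p' - p * q ^ 2 := by
      rw [← AdjoinRoot.mk_eq_mk, map_mul, map_pow, h2, hmk, hq, ← hti]
    refine ⟨hNiff.2 ?_, ?_⟩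
    · unfold NSq at h3 ⊢
      rw [h2] at h3
      rw [hmk, ht', map_mul, map_pow]
      exact h3.mul ⟨_, by rw [sq]⟩
    · intro L _ O' ι hL
      exact (hLiff L ι).2 (loc_sq ι _ p p' q hdv (h4 L O' ι hL))
  · rintro ⟨hN, hloc⟩
    exact ⟨U, p, rfl, hmk, hNiff.1 hN, fun L _ O' ι hL => (hLiff L ι).1 (hloc L O' ι hL)⟩

end Pool.PRK
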