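import Pool.Agent.H72.PRK.S2

/-!
# PRK, row FFD: over a finite field every class of square norm is the class of a divisor
-/

set_option autoImplicit false

namespace Pool.PRK

open Polynomial Pool.HYP

/-- **FFD.** -/
theorem ffd (hFFA : FFAStmt) (hFFB : FFBStmt) : FFDStmt := by
  intro k _ _ h2 f p hf hodd hp hN
  obtain ⟨u, v, hu, huf, hvf, hd, hQ⟩ := hFFA k h2 f p hf hodd hp hN
  obtain ⟨w, hw⟩ := hFFB k h2 f u hf hodd hu huf hQ
  exact ⟨u, w, v, hu, huf, hw, hvf, hd⟩

end Pool.PRK
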