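import Pool.Agent.H79.PRK.S1
import Pool.Agent.H30.T1.LOCK

/-!
# PRK, LUSK: the lattice at a prime of type `(0, e)`
-/

set_option autoImplicit false
set_option linter.overlappingInstances false
set_option linter.unusedSectionVars false

namespace Pool.PRK

open Polynomial Matrix Pool.HYP Pool.TOW Pool.AVS Pool.T1 IsDedekindDomain

section One

variable {R : Type} [CommRing R] [IsDedekindDomain R] {K : Type} [Field K] [Algebra R K]
  [IsFractionRing R K] {P : HeightOneSpectrum R} {k : Type} [Field k] (φ : R →+* k)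
  (hφ0 : ∀ a : R, φ a = 0 ↔ a ∈ P.asIdeal) (hφs : Function.Surjective φ)

include hφ0 hφs

/-- A matrix integral at `P` can be replaced by a matrix over `R` in the congruences
modulo `P`. -/
theorem lusk_red {n : ℕ} {f p : R[X]} (hf : f.Monic) {κ : Matrix (Fin n) (Fin n) K}
    (hκ1 : MIn (RP K P) κ) : ∃ a : Matrix (Fin n) (Fin n) R,
    ∀ (m : ℕ) (c : R) (T : Matrix (Fin n) (Fin n) R),
      algebraMap R K c • (κᵀ * gr m n (fk K f) (fk K p) * κ) = T.map (algebraMap R K) →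
      ∀ i j, (T - c • (aᵀ * gr m n f p * a)) i j ∈ P.asIdeal := by
  obtain ⟨m, a, hm, ha⟩ := den_fin_rp φ hφ0 (fun i : Fin n × Fin n => κ i.1 i.2)
    fun i => hκ1 i.1 i.2
  obtain ⟨κ₁, hκ₁⟩ : ∃ κ₁ : Matrix (Fin n) (Fin n) R, κ₁ = Matrix.of fun i j => a (i, j) :=
    ⟨_, rfl⟩
  have hmκ : algebraMap R K m • κ = κ₁.map (algebraMap R K) := by
    ext1 i j
    rw [hκ₁]
    exact ha (i, j)
  have hm0 : φ m ≠ 0 := fun h => hm ((hφ0 m).1 h)
  obtain ⟨m', hm'⟩ := hφs ((φ m)⁻¹)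
  refine ⟨m' • κ₁, fun r c T hT i j => ?_⟩
  have hrf : m ^ 2 • T = c • (κ₁ᵀ * gr r n f p * κ₁) := by
    apply map_inj_mat (K := K)
    have e1 : (κ₁ᵀ * gr r n f p * κ₁).map (algebraMap R K) =
        (κ₁.map (algebraMap R K))ᵀ * gr r n (fk K f) (fk K p) * κ₁.map (algebraMap R K) := by
      rw [Matrix.map_mul, Matrix.map_mul, Matrix.transpose_map, gr_map _ hf]
    have e2 : (c • (κ₁ᵀ * gr r n f p * κ₁)).map (algebraMap R K) =
        algebraMap R K c • (κ₁ᵀ * gr r n f p * κ₁).map (algebraMap R K) := by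
      ext i j
      simp only [Matrix.map_apply, Matrix.smul_apply, smul_eq_mul, map_mul]
    have e3 : (m ^ 2 • T).map (algebraMap R K) =
        algebraMap R K m ^ 2 • T.map (algebraMap R K) := by
      ext i j
      simp only [Matrix.map_apply, Matrix.smul_apply, smul_eq_mul, map_mul, map_pow]
    rw [e2, e3, e1, ← hmκ, Matrix.transpose_smul, Matrix.smul_mul, Matrix.smul_mul,
      Matrix.mul_smul, ← hT, smul_smul, smul_smul, smul_smul]
    congr 1
    ring
  have h1 := congrFun (congrFun hrf i) j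
  rw [← hφ0, Matrix.sub_apply, map_sub, sub_eq_zero]
  have h2 : φ m ^ 2 * φ (T i j) = φ c * φ ((κ₁ᵀ * gr r n f p * κ₁) i j) := by
    have h3 := congrArg φ h1
    rwa [Matrix.smul_apply, Matrix.smul_apply, smul_eq_mul, smul_eq_mul, map_mul, map_mul,
      map_pow] at h3
  have h4 : (c • ((m' • κ₁)ᵀ * gr r n f p * (m' • κ₁))) i j =
      c * (m' * (m' * (κ₁ᵀ * gr r n f p * κ₁) i j)) := by
    rw [Matrix.transpose_smul, Matrix.smul_mul, Matrix.smul_mul, Matrix.mul_smul,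
      Matrix.smul_apply, Matrix.smul_apply, Matrix.smul_apply, smul_eq_mul, smul_eq_mul,
      smul_eq_mul]
  rw [h4, map_mul, map_mul, map_mul, hm']
  have h5 : φ m ^ 2 ≠ 0 := pow_ne_zero _ hm0
  field_simp
  linear_combination h2

end One

/-- The determinant of a matrix which is congruent to `aᵀ H a`. -/
theorem lusk_det {R : Type} [CommRing R] (P : Ideal R) {n : ℕ}
    {G H a : Matrix (Fin n) (Fin n) R} (h : ∀ i j, (G - aᵀ * H * a) i j ∈ P)
    (hG : G.det ∉ P) : a.det ∉ P := by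
  intro ha
  apply hG
  rw [← Ideal.Quotient.eq_zero_iff_mem]
  have h1 : G.map (Ideal.Quotient.mk P) = (aᵀ * H * a).map (Ideal.Quotient.mk P) := by
    ext1 i j
    rw [Matrix.map_apply, Matrix.map_apply, ← sub_eq_zero, ← map_sub,
      Ideal.Quotient.eq_zero_iff_mem]
    exact h i j
  have h2 : Ideal.Quotient.mk P G.det = (G.map (Ideal.Quotient.mk P)).det := by
    rw [RingHom.map_det]
    rfl
  have h3 : ((aᵀ * H * a).map (Ideal.Quotient.mk P)).det =
      Ideal.Quotient.mk P (aᵀ * H * a).det := by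
    rw [RingHom.map_det]
    rfl
  rw [h2, h1, h3, Matrix.det_mul, map_mul, Ideal.Quotient.eq_zero_iff_mem.2 ha, mul_zero]

/-- **LUSK.** -/
theorem lusk (hNRM : NRMKStmt) : LUSKStmt := by
  intro R _ _ K _ _ _ P h2 hfin ϖ d c γ f g α e hg hf hn hϖ hϖ2 hd hγ hz hα hα2 hty
  have : P.asIdeal.IsMaximal := P.isMaximal
  letI : Field (R ⧸ P.asIdeal) := Ideal.Quotient.field P.asIdeal
  have hφ0 : ∀ a : R, Ideal.Quotient.mk P.asIdeal a = 0 ↔ a ∈ P.asIdeal := fun a =>
    Ideal.Quotient.eq_zero_iff_mem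
  obtain ⟨s, p, hs, hsp, hpf, he⟩ := hty
  have hN := (hNRM R K P h2 hfin ϖ c γ f g α hg hf hn hϖ hϖ2 hγ hz hα hα2 (0, e) s p hs hsp
    hpf).1
  have hv0 : ((0, e) : Ty).1.val = 0 := rfl
  rw [hv0, pow_zero, one_mul] at hsp
  rw [hv0, pow_zero, mul_one] at he
  have hK : (fk K f).Monic := hf.map _
  have hnK : (fk K f).natDegree = 2 * g + 1 := by rw [hf.natDegree_map, hn]
  -- the change of basis
  obtain ⟨κ, hκ⟩ : ∃ κ : Matrix (Fin (2 * g + 1)) (Fin (2 * g + 1)) K,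
    κ = mulM (2 * g + 1) (fk K f) s := ⟨_, rfl⟩
  have hκd : IsUnit κ.det := by
    have h := mulM_det_ne hK hs
    rwa [hnK, ← hκ] at h
  have hgr : ∀ m, κᵀ * gr m (2 * g + 1) (fk K f) α * κ = gr m (2 * g + 1) (fk K f) (fk K p) := by
    intro m
    have h := gr_sq hK m α s
    rw [hnK, ← hκ] at h
    rw [← h]
    exact gr_congr hK m _ hsp
  have hmap : ∀ m, gr m (2 * g + 1) (fk K f) (fk K p) =
      (gr m (2 * g + 1) f p).map (algebraMap R K) := fun m => (gr_map _ hf m _ p).symm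
  have hdet : (gr 0 (2 * g + 1) f p).det ∉ P.asIdeal :=
    lock_det (Ideal.Quotient.mk P.asIdeal) hφ0 hf hn hpf
  refine ⟨κ, hκd.ne_zero, ⟨?_, ?_⟩, ?_, ?_⟩
  · rw [hgr, hmap]
    exact rp_map _
  · have h5 : (κᵀ * gr 0 (2 * g + 1) (fk K f) α * κ).det =
        algebraMap R K (gr 0 (2 * g + 1) f p).det := by
      rw [hgr, hmap, RingHom.map_det]
      rfl
    rw [h5]
    refine ⟨alg_ne fun h0 => hdet (by rw [h0]; exact P.asIdeal.zero_mem), rp_alg _,
      rp_inv hdet⟩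
  · rw [hgr, hmap]
    exact rp_map _
  · intro E G S hE hG hEG hES
    obtain ⟨a, ha⟩ := lusk_red (Ideal.Quotient.mk P.asIdeal) hφ0 Ideal.Quotient.mk_surjective
      (p := p) hf hE
    have hEE : ∀ m, (κ⁻¹ * E)ᵀ * gr m (2 * g + 1) (fk K f) (fk K p) * (κ⁻¹ * E) =
        Eᵀ * gr m (2 * g + 1) (fk K f) α * E := by
      intro m
      have h6 : κ * (κ⁻¹ * E) = E := by
        rw [← Matrix.mul_assoc, Matrix.mul_nonsing_inv κ hκd, Matrix.one_mul]
      rw [← hgr m]
      have h7 : (κ⁻¹ * E)ᵀ * (κᵀ * gr m (2 * g + 1) (fk K f) α * κ) * (κ⁻¹ * E) =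
          (κ * (κ⁻¹ * E))ᵀ * gr m (2 * g + 1) (fk K f) α * (κ * (κ⁻¹ * E)) := by
        rw [Matrix.transpose_mul κ]
        simp only [Matrix.mul_assoc]
      rw [h7, h6]
    have h8 : ∀ i j, (G - aᵀ * gr 0 (2 * g + 1) f p * a) i j ∈ P.asIdeal := by
      intro i j
      have h9 := ha 0 1 G (by rw [map_one, one_smul, hEE, hEG]) i j
      rwa [one_smul] at h9
    refine ⟨a, p, lusk_det P.asIdeal h8 hG, hpf, he, he.trans hN, h8, ?_⟩
    exact ha 1 d S (by rw [hEE, hES])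

end Pool.PRK
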